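import Pool.Agent.H235.Ti.SpecL

set_option autoImplicit false

/-!
# Project Ti, task LR: the cut-off functions, the explicit kernel and its bound
-/

namespace Pool.Agent.H971.TiR

open MeasureTheory Set Filter Topology Complex
open Pool.Agent.R225.LP (gk)
open Pool.Agent.N275.QD (Rf Kf Gf Gr Hh S_KF)
open Pool.Agent.H235.Ti
open scoped Real ENNReal ComplexConjugate

lemma contDiff_Xi (d : ℝ) : ContDiff ℝ 3 (Xi d) := by
  have h : ContDiff ℝ 3 Real.smoothTransition := Real.smoothTransition.contDiff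
  have : Xi d = fun x => Real.smoothTransition (3 * x / d - 1) := rfl
  rw [this]
  exact h.comp (by fun_prop)

lemma contDiff_X1 (d : ℝ) : ContDiff ℝ 2 (X1 d) := by
  have h := contDiff_Xi d
  have h2 : ContDiff ℝ (2 + 1) (Xi d) := by
    norm_num
    exact h
  exact (contDiff_succ_iff_deriv.1 h2).2.2

lemma contDiff_X2 (d : ℝ) : ContDiff ℝ 1 (X2 d) := by
  have h := contDiff_X1 d
  have h2 : ContDiff ℝ (1 + 1) (X1 d) := by
    norm_num
    exact h
  exact (contDiff_succ_iff_deriv.1 h2).2.2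

lemma Xi_eq_zero {d x : ℝ} (hd : 0 < d) (hx : x < d / 3) : Xi d x = 0 := by
  unfold Xi
  apply Real.smoothTransition.zero_of_nonpos
  rw [sub_nonpos, div_le_one hd]
  linarith

lemma Xi_eq_one {d x : ℝ} (hd : 0 < d) (hx : 2 * d / 3 < x) : Xi d x = 1 := by
  unfold Xi
  apply Real.smoothTransition.one_of_one_le
  rw [le_sub_iff_add_le, le_div_iff₀ hd]
  linarith

lemma X1_eq_zero {d x : ℝ} (hd : 0 < d) (hx : x < d / 3 ∨ 2 * d / 3 < x) : X1 d x = 0 := by
  unfold X1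
  rcases hx with hx | hx
  · have : Xi d =ᶠ[𝓝 x] fun _ => 0 := by
      filter_upwards [Iio_mem_nhds hx] with y hy
      exact Xi_eq_zero hd hy
    rw [this.deriv_eq]
    simp
  · have : Xi d =ᶠ[𝓝 x] fun _ => 1 := by
      filter_upwards [Ioi_mem_nhds hx] with y hy
      exact Xi_eq_one hd hy
    rw [this.deriv_eq]
    simp

lemma X2_eq_zero {d x : ℝ} (hd : 0 < d) (hx : x < d / 3 ∨ 2 * d / 3 < x) : X2 d x = 0 := by
  unfold X2
  rcases hx with hx | hx
  · have : X1 d =ᶠ[𝓝 x] fun _ => 0 := by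
      filter_upwards [Iio_mem_nhds hx] with y hy
      exact X1_eq_zero hd (Or.inl hy)
    rw [this.deriv_eq]
    simp
  · have : X1 d =ᶠ[𝓝 x] fun _ => 0 := by
      filter_upwards [Ioi_mem_nhds hx] with y hy
      exact X1_eq_zero hd (Or.inr hy)
    rw [this.deriv_eq]
    simp

lemma exists_bound {d : ℝ} {f : ℝ → ℝ} (hf : Continuous f)
    (h0 : ∀ x, x < d / 3 ∨ 2 * d / 3 < x → f x = 0) : ∃ B : ℝ, 0 < B ∧ ∀ x, |f x| ≤ B := by
  obtain ⟨B, hB⟩ := (isCompact_Icc (a := d / 3) (b := 2 * d / 3)).exists_bound_of_continuousOn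
    hf.continuousOn
  refine ⟨max B 1, by positivity, fun x => ?_⟩
  by_cases hx : x ∈ Icc (d / 3) (2 * d / 3)
  · have := hB x hx
    rw [Real.norm_eq_abs] at this
    exact this.trans (le_max_left _ _)
  · have h1 : x < d / 3 ∨ 2 * d / 3 < x := by
      simp only [mem_Icc, not_and_or, not_le] at hx
      exact hx
    rw [h0 x h1]
    simp

/-- a common bound -/
lemma exists_bound12 {d : ℝ} (hd : 0 < d) :
    ∃ B : ℝ, 0 < B ∧ (∀ x, |X1 d x| ≤ B) ∧ ∀ x, |X2 d x| ≤ B := by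
  obtain ⟨B1, h1, h1'⟩ := exists_bound (contDiff_X1 d).continuous (fun x => X1_eq_zero hd)
  obtain ⟨B2, h2, h2'⟩ := exists_bound (contDiff_X2 d).continuous (fun x => X2_eq_zero hd)
  exact ⟨max B1 B2, by positivity, fun x => (h1' x).trans (le_max_left _ _),
    fun x => (h2' x).trans (le_max_right _ _)⟩

/-- the Gaussian in coordinates -/
noncomputable def hv (σ u v : ℝ) : ℝ := Real.exp (-((u ^ 2 + v ^ 2) / (4 * σ))) / (4 * π * σ)

lemma gk_eq (σ : ℝ) (z : ℂ) : gk σ z = hv σ z.re z.im := by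
  unfold gk hv
  rw [Complex.sq_norm, Complex.normSq_apply]
  ring_nf

lemma GR_eq (d σ x y x' y' : ℝ) :
    GR d σ ((x : ℂ) + (y : ℂ) * I) ((x' : ℂ) + (y' : ℂ) * I) =
      hv σ (x + x' - 2 * d) (y - y') - hv σ (x + x' - 2 * d) (y + y') := by
  unfold GR
  rw [gk_eq, gk_eq]
  congr 2
  · simp
    ring
  · simp
  · simp
    ring
  · simp

lemma hasDerivAt_hv (σ c v x : ℝ) :
    HasDerivAt (fun x => hv σ (x + c) v) (-((x + c) / (2 * σ)) * hv σ (x + c) v) x := by
  unfold hv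
  have h1 : HasDerivAt (fun x : ℝ => -(((x + c) ^ 2 + v ^ 2) / (4 * σ)))
      (-((x + c) / (2 * σ))) x := by
    have h2 : HasDerivAt (fun x : ℝ => (x + c) ^ 2 + v ^ 2) (2 * (x + c)) x := by
      have h3 : HasDerivAt (fun x : ℝ => (x + c) ^ 2) _ x := ((hasDerivAt_id x).add_const c).pow 2
      refine (h3.add_const (v ^ 2)).congr_deriv ?_
      simp
    have h4 : HasDerivAt (fun x : ℝ => -(((x + c) ^ 2 + v ^ 2) / (4 * σ))) _ x :=
      (h2.div_const (4 * σ)).neg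
    refine h4.congr_deriv ?_
    rcases eq_or_ne σ 0 with h | h
    · simp [h]
    · field_simp
      ring
  have h5 : HasDerivAt (fun x : ℝ => Real.exp (-(((x + c) ^ 2 + v ^ 2) / (4 * σ))) /
      (4 * π * σ)) _ x := (h1.exp).div_const (4 * π * σ)
  refine h5.congr_deriv ?_
  ring

/-- the difference of the two Gaussians -/
noncomputable def P (σ u y y' : ℝ) : ℝ := hv σ u (y - y') - hv σ u (y + y')

lemma hasDerivAt_P (σ c y y' x : ℝ) :
    HasDerivAt (fun x => P σ (x + c) y y') (-((x + c) / (2 * σ)) * P σ (x + c) y y') x := by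
  unfold P
  have : HasDerivAt (fun x => hv σ (x + c) (y - y') - hv σ (x + c) (y + y')) _ x :=
    (hasDerivAt_hv σ c (y - y') x).sub (hasDerivAt_hv σ c (y + y') x)
  refine this.congr_deriv ?_
  ring

lemma hasDerivAt_P1 (σ c y y' x : ℝ) :
    HasDerivAt (fun x => -((x + c) / (2 * σ)) * P σ (x + c) y y')
      ((((x + c) / (2 * σ)) ^ 2 - 1 / (2 * σ)) * P σ (x + c) y y') x := by
  have h1 : HasDerivAt (fun x : ℝ => -((x + c) / (2 * σ))) (-(1 / (2 * σ))) x :=
    (((hasDerivAt_id x).add_const c).div_const (2 * σ)).neg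
  have : HasDerivAt (fun x => -((x + c) / (2 * σ)) * P σ (x + c) y y') _ x :=
    h1.mul (hasDerivAt_P σ c y y' x)
  refine this.congr_deriv ?_
  ring

/-- the explicit form of the second kernel after the commutators -/
noncomputable def CR (d σ : ℝ) (z w : ℂ) : ℝ :=
  (X2 d z.re * X2 d w.re + 2 * (X2 d z.re * X1 d w.re + X1 d z.re * X2 d w.re) *
    (-((z.re + w.re - 2 * d) / (2 * σ))) + 4 * (X1 d z.re * X1 d w.re) *
    (((z.re + w.re - 2 * d) / (2 * σ)) ^ 2 - 1 / (2 * σ))) *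
    P σ (z.re + w.re - 2 * d) z.im w.im

lemma CC_eq (d σ : ℝ) (z w : ℂ) : CC d (GR d σ) z w = CR d σ z w := by
  unfold CC
  have h0 : ∀ x x' : ℝ, GR d σ ((x : ℂ) + (z.im : ℂ) * I) ((x' : ℂ) + (w.im : ℂ) * I) =
      P σ (x + x' - 2 * d) z.im w.im := fun x x' => GR_eq d σ x z.im x' w.im
  have h1 : ∀ x : ℝ, Cx d (fun x' => GR d σ ((x : ℂ) + (z.im : ℂ) * I)
      ((x' : ℂ) + (w.im : ℂ) * I)) w.re =
      X2 d w.re * P σ (x + (w.re - 2 * d)) z.im w.im + 2 * X1 d w.re *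
        (-((x + (w.re - 2 * d)) / (2 * σ)) * P σ (x + (w.re - 2 * d)) z.im w.im) := by
    intro x
    unfold Cx
    have h2 : (fun x' : ℝ => GR d σ ((x : ℂ) + (z.im : ℂ) * I) ((x' : ℂ) + (w.im : ℂ) * I)) =
        fun x' => P σ (x' + (x - 2 * d)) z.im w.im := by
      funext x'
      rw [h0]
      congr 1
      ring
    rw [h2, (hasDerivAt_P σ (x - 2 * d) z.im w.im w.re).deriv]
    have h3 : w.re + (x - 2 * d) = x + (w.re - 2 * d) := by ring
    simp only [h3]
  simp_rw [h1]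
  unfold Cx
  have h4 : HasDerivAt (fun x : ℝ => X2 d w.re * P σ (x + (w.re - 2 * d)) z.im w.im +
      2 * X1 d w.re * (-((x + (w.re - 2 * d)) / (2 * σ)) * P σ (x + (w.re - 2 * d)) z.im w.im))
      (X2 d w.re * (-((z.re + (w.re - 2 * d)) / (2 * σ)) * P σ (z.re + (w.re - 2 * d)) z.im w.im) +
        2 * X1 d w.re * ((((z.re + (w.re - 2 * d)) / (2 * σ)) ^ 2 - 1 / (2 * σ)) *
          P σ (z.re + (w.re - 2 * d)) z.im w.im)) z.re :=
    ((hasDerivAt_P σ (w.re - 2 * d) z.im w.im z.re).const_mul _).add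
      ((hasDerivAt_P1 σ (w.re - 2 * d) z.im w.im z.re).const_mul _)
  rw [h4.deriv]
  unfold CR
  have h5 : z.re + (w.re - 2 * d) = z.re + w.re - 2 * d := by ring
  rw [h5]
  ring

lemma measurable_CR (d : ℝ) :
    Measurable (fun p : ℝ × ℂ × ℂ => CR d p.1 p.2.1 p.2.2) := by
  have h1 : Measurable (X1 d) := (contDiff_X1 d).continuous.measurable
  have h2 : Measurable (X2 d) := (contDiff_X2 d).continuous.measurable
  unfold CR P hv
  fun_prop

lemma exp_pow_bound {a s : ℝ} (ha : 0 < a) (hs : 0 < s) (k : ℕ) :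
    (1 / s) ^ k * Real.exp (-(a / s)) ≤ k.factorial / a ^ k := by
  have h1 : (a / s) ^ k / k.factorial ≤ Real.exp (a / s) :=
    Real.pow_div_factorial_le_exp (a / s) (by positivity) k
  rw [Real.exp_neg, ← div_eq_mul_inv, div_le_div_iff₀ (Real.exp_pos _) (by positivity)]
  rw [div_le_iff₀ (by positivity)] at h1
  calc (1 / s) ^ k * a ^ k = (a / s) ^ k := by
        rw [← mul_pow]
        congr 1
        ring
    _ ≤ Real.exp (a / s) * k.factorial := h1
    _ = k.factorial * Real.exp (a / s) := by ring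

/-- the bound of the second kernel -/
lemma CR_bound {d : ℝ} (hd : 0 < d) (η : ℝ) : ∃ C : ℝ, 0 < C ∧ ∀ (σ : ℝ) (z w : ℂ), 0 < σ →
    z ∈ Kc d η → w ∈ Kc d η → |CR d σ z w| ≤ C := by
  obtain ⟨B, hB, hB1, hB2⟩ := exists_bound12 hd
  set a : ℝ := d ^ 2 / 36 with ha
  have ha0 : 0 < a := by positivity
  -- the bound of P
  have hP : ∀ (σ u y y' : ℝ), 0 < σ → d / 3 ≤ |u| → |P σ u y y'| ≤
      2 * (Real.exp (-(a / σ)) * (1 / σ)) := by
    intro σ u y y' hσ hu
    have h1 : ∀ v, |hv σ u v| ≤ Real.exp (-(a / σ)) * (1 / σ) := by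
      intro v
      unfold hv
      rw [abs_of_nonneg (by positivity)]
      have h2 : a / σ ≤ (u ^ 2 + v ^ 2) / (4 * σ) := by
        rw [div_le_div_iff₀ hσ (by positivity)]
        have : (d / 3) ^ 2 ≤ u ^ 2 := by
          rw [← sq_abs u]
          exact pow_le_pow_left₀ (by positivity) hu 2
        rw [ha]
        nlinarith [sq_nonneg v, mul_nonneg hσ.le (sq_nonneg v), mul_le_mul_of_nonneg_left this hσ.le]
      have h3 : Real.exp (-((u ^ 2 + v ^ 2) / (4 * σ))) ≤ Real.exp (-(a / σ)) :=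
        Real.exp_le_exp.2 (by linarith)
      have h4 : 1 / (4 * π * σ) ≤ 1 / σ := by
        apply one_div_le_one_div_of_le hσ
        nlinarith [Real.pi_gt_three]
      calc Real.exp (-((u ^ 2 + v ^ 2) / (4 * σ))) / (4 * π * σ) =
          Real.exp (-((u ^ 2 + v ^ 2) / (4 * σ))) * (1 / (4 * π * σ)) := by ring
        _ ≤ _ := mul_le_mul h3 h4 (by positivity) (by positivity)
    unfold P
    calc |hv σ u (y - y') - hv σ u (y + y')| ≤ |hv σ u (y - y')| + |hv σ u (y + y')| := abs_sub _ _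
      _ ≤ _ := by linarith [h1 (y - y'), h1 (y + y')]
  refine ⟨2 * (B ^ 2 * (1 / a) + 4 * B ^ 2 * (d * (2 / a ^ 2)) +
    4 * B ^ 2 * (d ^ 2 * (6 / a ^ 3) + 2 / a ^ 2)), by positivity, ?_⟩
  intro σ z w hσ hz hw
  set u := z.re + w.re - 2 * d with hu
  have hu1 : |u| ≤ 2 * d := by
    rw [abs_le]
    have := hz.1; have := hz.2.1; have := hw.1; have := hw.2.1
    constructor <;> linarith
  have hu2 : d / 3 ≤ |u| := by
    rw [le_abs]
    right
    have := hz.1; have := hz.2.1; have := hw.1; have := hw.2.1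
    linarith
  have hPP := hP σ u z.im w.im hσ hu2
  have e1 := exp_pow_bound ha0 hσ 1
  have e2 := exp_pow_bound ha0 hσ 2
  have e3 := exp_pow_bound ha0 hσ 3
  set E := Real.exp (-(a / σ)) with hE
  have hE0 : 0 < E := Real.exp_pos _
  set r := 1 / σ with hr
  have hr0 : 0 < r := by positivity
  have hx1 := hB1 z.re; have hx2 := hB2 z.re; have hy1 := hB1 w.re; have hy2 := hB2 w.re
  have k1 : |X2 d z.re * X2 d w.re| ≤ B ^ 2 := by
    rw [abs_mul, sq]
    exact mul_le_mul hx2 hy2 (abs_nonneg _) hB.le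
  have k2 : |X2 d z.re * X1 d w.re| ≤ B ^ 2 := by
    rw [abs_mul, sq]
    exact mul_le_mul hx2 hy1 (abs_nonneg _) hB.le
  have k3 : |X1 d z.re * X2 d w.re| ≤ B ^ 2 := by
    rw [abs_mul, sq]
    exact mul_le_mul hx1 hy2 (abs_nonneg _) hB.le
  have k4 : |X1 d z.re * X1 d w.re| ≤ B ^ 2 := by
    rw [abs_mul, sq]
    exact mul_le_mul hx1 hy1 (abs_nonneg _) hB.le
  have m1 : |u / (2 * σ)| ≤ d * r := by
    rw [abs_div, abs_of_pos (by positivity : 0 < 2 * σ), div_le_iff₀ (by positivity), hr]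
    have : d * (1 / σ) * (2 * σ) = 2 * d := by
      field_simp
    rw [this]
    exact hu1
  have m2 : |(u / (2 * σ)) ^ 2 - 1 / (2 * σ)| ≤ d ^ 2 * r ^ 2 + r := by
    have n1 : |(u / (2 * σ)) ^ 2| ≤ d ^ 2 * r ^ 2 := by
      rw [abs_pow, ← mul_pow]
      exact pow_le_pow_left₀ (abs_nonneg _) m1 2
    have n2 : |1 / (2 * σ)| ≤ r := by
      rw [abs_of_pos (by positivity), hr]
      apply one_div_le_one_div_of_le hσ
      linarith
    calc _ ≤ |(u / (2 * σ)) ^ 2| + |1 / (2 * σ)| := abs_sub _ _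
      _ ≤ _ := add_le_add n1 n2
  have big : |X2 d z.re * X2 d w.re + 2 * (X2 d z.re * X1 d w.re + X1 d z.re * X2 d w.re) *
    (-(u / (2 * σ))) + 4 * (X1 d z.re * X1 d w.re) *
    ((u / (2 * σ)) ^ 2 - 1 / (2 * σ))| ≤ B ^ 2 + 4 * B ^ 2 * (d * r) +
      4 * B ^ 2 * (d ^ 2 * r ^ 2 + r) := by
    have q1 : |2 * (X2 d z.re * X1 d w.re + X1 d z.re * X2 d w.re) * (-(u / (2 * σ)))| ≤
        4 * B ^ 2 * (d * r) := by
      rw [abs_mul, abs_mul, abs_neg]
      have : |X2 d z.re * X1 d w.re + X1 d z.re * X2 d w.re| ≤ 2 * B ^ 2 := by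
        calc _ ≤ |X2 d z.re * X1 d w.re| + |X1 d z.re * X2 d w.re| := abs_add_le _ _
          _ ≤ _ := by linarith
      have h2 : |(2 : ℝ)| = 2 := by norm_num
      rw [h2]
      calc 2 * |X2 d z.re * X1 d w.re + X1 d z.re * X2 d w.re| * |u / (2 * σ)| ≤
          2 * (2 * B ^ 2) * (d * r) := by
            apply mul_le_mul _ m1 (abs_nonneg _) (by positivity)
            linarith
        _ = _ := by ring
    have q2 : |4 * (X1 d z.re * X1 d w.re) * ((u / (2 * σ)) ^ 2 - 1 / (2 * σ))| ≤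
        4 * B ^ 2 * (d ^ 2 * r ^ 2 + r) := by
      rw [abs_mul, abs_mul]
      have h2 : |(4 : ℝ)| = 4 := by norm_num
      rw [h2]
      apply mul_le_mul _ m2 (abs_nonneg _) (by positivity)
      linarith
    calc _ ≤ |X2 d z.re * X2 d w.re + 2 * (X2 d z.re * X1 d w.re + X1 d z.re * X2 d w.re) *
          (-(u / (2 * σ)))| + |4 * (X1 d z.re * X1 d w.re) *
            ((u / (2 * σ)) ^ 2 - 1 / (2 * σ))| := abs_add_le _ _
      _ ≤ |X2 d z.re * X2 d w.re| + |2 * (X2 d z.re * X1 d w.re + X1 d z.re * X2 d w.re) *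
          (-(u / (2 * σ)))| + |4 * (X1 d z.re * X1 d w.re) *
            ((u / (2 * σ)) ^ 2 - 1 / (2 * σ))| := by
          gcongr
          exact abs_add_le _ _
      _ ≤ _ := by linarith
  unfold CR
  rw [← hu, abs_mul]
  have hfin : (B ^ 2 + 4 * B ^ 2 * (d * r) + 4 * B ^ 2 * (d ^ 2 * r ^ 2 + r)) *
      (2 * (E * r)) = 2 * (B ^ 2 * (r ^ 1 * E) + 4 * B ^ 2 * (d * (r ^ 2 * E)) +
    4 * B ^ 2 * (d ^ 2 * (r ^ 3 * E) + r ^ 2 * E)) := by ring
  refine (mul_le_mul big hPP (abs_nonneg _) (by positivity)).trans ?_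
  rw [hfin]
  have f1 : r ^ 1 * E ≤ 1 / a := by simpa using e1
  have f2 : r ^ 2 * E ≤ 2 / a ^ 2 := by simpa using e2
  have f3 : r ^ 3 * E ≤ 6 / a ^ 3 := by
    have : ((Nat.factorial 3 : ℕ) : ℝ) = 6 := by norm_num [Nat.factorial]
    rw [this] at e3
    exact e3
  gcongr

end Pool.Agent.H971.TiR
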