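import Mathlib

set_option autoImplicit false

/-!
# Laplace transform of a convolution of kernels
-/

namespace Pool.Agent.H971.TiR

open MeasureTheory Set Filter Topology
open scoped Real ENNReal

/-- the half-line measure -/
noncomputable abbrev hl : Measure ℝ := volume.restrict (Ioi (0 : ℝ))

lemma conv2 {F : ℝ × ℝ → ℝ} (hF : Integrable F (hl.prod hl)) :
    IntegrableOn (fun t : ℝ => ∫ τ in (0 : ℝ)..t, F (τ, t - τ)) (Ioi 0) ∧
    ∫ t in Ioi (0 : ℝ), ∫ τ in (0 : ℝ)..t, F (τ, t - τ) = ∫ p, F p ∂(hl.prod hl) := by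
  set S : Set (ℝ × ℝ) := Ioi 0 ×ˢ Ioi 0 with hS
  have hSm : MeasurableSet S := measurableSet_Ioi.prod measurableSet_Ioi
  have hr : hl.prod hl = ((volume : Measure ℝ).prod (volume : Measure ℝ)).restrict S :=
    Measure.prod_restrict _ _
  rw [hr] at hF ⊢
  have hF' : Integrable (S.indicator F) ((volume : Measure ℝ).prod (volume : Measure ℝ)) :=
    (integrable_indicator_iff hSm).2 hF
  have hT := measurePreserving_prod_sub_swap (volume : Measure ℝ) (volume : Measure ℝ)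
  have hH : Integrable (fun z : ℝ × ℝ => S.indicator F (z.2, z.1 - z.2))
      ((volume : Measure ℝ).prod (volume : Measure ℝ)) :=
    hT.integrable_comp_of_integrable hF'
  have hval : ∀ t : ℝ, 0 < t → ∫ τ, S.indicator F (τ, t - τ) = ∫ τ in (0 : ℝ)..t, F (τ, t - τ) := by
    intro t ht
    rw [intervalIntegral.integral_of_le ht.le, integral_Ioc_eq_integral_Ioo,
      ← integral_indicator measurableSet_Ioo]
    congr 1
    funext τ
    by_cases h : τ ∈ Ioo 0 t
    · rw [indicator_of_mem h, indicator_of_mem]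
      exact ⟨h.1, by simpa using h.2⟩
    · rw [indicator_of_notMem h, indicator_of_notMem]
      intro h2
      exact h ⟨h2.1, by simpa using h2.2⟩
  have hneg : ∀ t : ℝ, t ≤ 0 → ∫ τ, S.indicator F (τ, t - τ) = 0 := by
    intro t ht
    rw [show (fun τ => S.indicator F (τ, t - τ)) = fun _ => 0 from ?_]
    · simp
    funext τ
    rw [indicator_of_notMem]
    intro h2
    have h3 : 0 < τ := h2.1
    have h4 : 0 < t - τ := h2.2
    linarith
  have h1 := hH.integral_prod_left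
  constructor
  · refine (h1.integrableOn (s := Ioi 0)).congr_fun (fun t ht => ?_) measurableSet_Ioi
    exact hval t ht
  · have h2 : ∫ t in Ioi (0 : ℝ), ∫ τ in (0 : ℝ)..t, F (τ, t - τ) =
        ∫ t in Ioi (0 : ℝ), ∫ τ, S.indicator F (τ, t - τ) := by
      apply setIntegral_congr_fun measurableSet_Ioi
      intro t ht
      exact (hval t ht).symm
    rw [h2]
    have h3 : ∫ t in Ioi (0 : ℝ), ∫ τ, S.indicator F (τ, t - τ) =
        ∫ t, ∫ τ, S.indicator F (τ, t - τ) := by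
      apply setIntegral_eq_integral_of_forall_compl_eq_zero
      intro t ht
      exact hneg t (by simpa using ht)
    rw [h3, ← integral_indicator hSm]
    have h4 := integral_prod _ hH
    simp only at h4
    rw [← h4]
    have h5 : ∫ p, S.indicator F p ∂((volume : Measure ℝ).prod (volume : Measure ℝ)) =
        ∫ z, S.indicator F (z.2, z.1 - z.2) ∂((volume : Measure ℝ).prod (volume : Measure ℝ)) := by
      have h6 := integral_map (μ := (volume : Measure ℝ).prod (volume : Measure ℝ))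
        (φ := fun z : ℝ × ℝ => (z.2, z.1 - z.2)) (f := S.indicator F) hT.aemeasurable
        (by rw [hT.map_eq]; exact hF'.aestronglyMeasurable)
      rw [hT.map_eq] at h6
      exact h6
    rw [h5]

lemma integrable_exp_hl {l : ℝ} (hl0 : 0 < l) : Integrable (fun t : ℝ => Real.exp (-(l * t))) hl := by
  have := integrableOn_exp_mul_Ioi (a := -l) (by linarith) 0
  refine this.congr_fun (fun t _ => ?_) measurableSet_Ioi
  simp

lemma ae_hl_prod : ∀ᵐ p : ℝ × ℝ ∂(hl.prod hl), 0 < p.1 ∧ 0 < p.2 := by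
  have hr : hl.prod hl = ((volume : Measure ℝ).prod (volume : Measure ℝ)).restrict
      (Ioi 0 ×ˢ Ioi 0) := Measure.prod_restrict _ _
  rw [hr]
  filter_upwards [ae_restrict_mem (measurableSet_Ioi.prod measurableSet_Ioi)] with p hp
  exact hp

lemma laplace_conv {K : Set ℂ} (hK : MeasurableSet K) (hKf : volume K < ∞)
    {G C2 : ℝ × ℂ × ℂ → ℝ} (hG : Measurable G) (hC : Measurable C2) {B : ℝ}
    (hGB : ∀ τ z w, 0 < τ → z ∈ K → w ∈ K → |G (τ, w, z)| ≤ B)
    (hCB : ∀ τ z w, 0 < τ → z ∈ K → w ∈ K → |C2 (τ, z, w)| ≤ B) {l : ℝ} (hl0 : 0 < l) :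
    IntegrableOn (fun t => Real.exp (-(l * t)) * ∫ τ in (0 : ℝ)..t, ∫ z in K, ∫ w in K,
      G (τ, w, z) * C2 (t - τ, z, w)) (Ioi 0) ∧
    ∫ t in Ioi (0 : ℝ), Real.exp (-(l * t)) * ∫ τ in (0 : ℝ)..t, ∫ z in K, ∫ w in K,
      G (τ, w, z) * C2 (t - τ, z, w) =
    ∫ z in K, ∫ w in K, (∫ τ in Ioi (0 : ℝ), Real.exp (-(l * τ)) * G (τ, w, z)) *
      ∫ σ in Ioi (0 : ℝ), Real.exp (-(l * σ)) * C2 (σ, z, w) := by
  set ν : Measure ℂ := volume.restrict K with hν
  haveI : IsFiniteMeasure ν := ⟨by rw [hν, Measure.restrict_apply_univ]; exact hKf⟩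
  have hνae : ∀ᵐ q : ℂ × ℂ ∂(ν.prod ν), q.1 ∈ K ∧ q.2 ∈ K := by
    have hr : ν.prod ν = ((volume : Measure ℂ).prod (volume : Measure ℂ)).restrict (K ×ˢ K) :=
      Measure.prod_restrict _ _
    rw [hr]
    filter_upwards [ae_restrict_mem (hK.prod hK)] with p hp
    exact hp
  set H : (ℝ × ℝ) × (ℂ × ℂ) → ℝ := fun p =>
    (Real.exp (-(l * p.1.1)) * G (p.1.1, p.2.2, p.2.1)) *
      (Real.exp (-(l * p.1.2)) * C2 (p.1.2, p.2.1, p.2.2)) with hH
  have hHm : Measurable H := by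
    have h1 : Measurable fun p : (ℝ × ℝ) × (ℂ × ℂ) => G (p.1.1, p.2.2, p.2.1) :=
      hG.comp (by fun_prop)
    have h2 : Measurable fun p : (ℝ × ℝ) × (ℂ × ℂ) => C2 (p.1.2, p.2.1, p.2.2) :=
      hC.comp (by fun_prop)
    have h3 : Measurable fun p : (ℝ × ℝ) × (ℂ × ℂ) => Real.exp (-(l * p.1.1)) := by fun_prop
    have h4 : Measurable fun p : (ℝ × ℝ) × (ℂ × ℂ) => Real.exp (-(l * p.1.2)) := by fun_prop
    exact (h3.mul h1).mul (h4.mul h2)
  have hdom : Integrable (fun p : (ℝ × ℝ) × (ℂ × ℂ) =>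
      (Real.exp (-(l * p.1.1)) * Real.exp (-(l * p.1.2))) * (|B| * |B|))
      ((hl.prod hl).prod (ν.prod ν)) := by
    have h1 : Integrable (fun p : ℝ × ℝ => Real.exp (-(l * p.1)) * Real.exp (-(l * p.2)))
        (hl.prod hl) := (integrable_exp_hl hl0).mul_prod (integrable_exp_hl hl0)
    have h2 : Integrable (fun _ : ℂ × ℂ => |B| * |B|) (ν.prod ν) := integrable_const _
    exact h1.mul_prod h2
  have hHi : Integrable H ((hl.prod hl).prod (ν.prod ν)) := by
    refine hdom.mono' hHm.aestronglyMeasurable ?_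
    have h1 : ∀ᵐ p : (ℝ × ℝ) × (ℂ × ℂ) ∂((hl.prod hl).prod (ν.prod ν)),
        0 < p.1.1 ∧ 0 < p.1.2 :=
      (Measure.quasiMeasurePreserving_fst (μ := hl.prod hl) (ν := ν.prod ν)).ae ae_hl_prod
    have h2 : ∀ᵐ p : (ℝ × ℝ) × (ℂ × ℂ) ∂((hl.prod hl).prod (ν.prod ν)),
        p.2.1 ∈ K ∧ p.2.2 ∈ K :=
      (Measure.quasiMeasurePreserving_snd (μ := hl.prod hl) (ν := ν.prod ν)).ae hνae
    filter_upwards [h1, h2] with p hp1 hp2
    rw [Real.norm_eq_abs, hH]
    simp only [abs_mul, Real.abs_exp]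
    have e1 := hGB p.1.1 p.2.1 p.2.2 hp1.1 hp2.1 hp2.2
    have e2 := hCB p.1.2 p.2.1 p.2.2 hp1.2 hp2.1 hp2.2
    have e1' := e1.trans (le_abs_self B)
    have e2' := e2.trans (le_abs_self B)
    calc Real.exp (-(l * p.1.1)) * |G (p.1.1, p.2.2, p.2.1)| *
          (Real.exp (-(l * p.1.2)) * |C2 (p.1.2, p.2.1, p.2.2)|) =
          (Real.exp (-(l * p.1.1)) * Real.exp (-(l * p.1.2))) *
            (|G (p.1.1, p.2.2, p.2.1)| * |C2 (p.1.2, p.2.1, p.2.2)|) := by ring
      _ ≤ _ := by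
        apply mul_le_mul_of_nonneg_left _ (by positivity)
        exact mul_le_mul e1' e2' (abs_nonneg _) (abs_nonneg _)
  -- the function of two times
  set F : ℝ × ℝ → ℝ := fun p => Real.exp (-(l * p.1)) * Real.exp (-(l * p.2)) *
    ∫ z in K, ∫ w in K, G (p.1, w, z) * C2 (p.2, z, w) with hF
  have hFeq : ∀ᵐ p : ℝ × ℝ ∂(hl.prod hl), F p = ∫ q, H (p, q) ∂(ν.prod ν) := by
    filter_upwards [hHi.prod_right_ae] with p hp
    rw [integral_prod _ hp, hF, hH]
    simp only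
    rw [← integral_const_mul]
    congr 1
    funext z
    rw [← integral_const_mul]
    congr 1
    funext w
    ring
  have hFi : Integrable F (hl.prod hl) :=
    hHi.integral_prod_left.congr (hFeq.mono fun p hp => hp.symm)
  obtain ⟨c1, c2⟩ := conv2 hFi
  have hFt : ∀ t τ : ℝ, F (τ, t - τ) = Real.exp (-(l * t)) *
      ∫ z in K, ∫ w in K, G (τ, w, z) * C2 (t - τ, z, w) := by
    intro t τ
    rw [hF]
    simp only
    congr 1
    rw [← Real.exp_add]
    congr 1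
    ring
  have hFt' : ∀ t : ℝ, ∫ τ in (0 : ℝ)..t, F (τ, t - τ) = Real.exp (-(l * t)) *
      ∫ τ in (0 : ℝ)..t, ∫ z in K, ∫ w in K, G (τ, w, z) * C2 (t - τ, z, w) := by
    intro t
    simp_rw [hFt]
    rw [intervalIntegral.integral_const_mul]
  simp_rw [hFt'] at c1 c2
  refine ⟨c1, c2.trans ?_⟩
  rw [integral_congr_ae hFeq]
  have hsw : ∫ p, ∫ q, H (p, q) ∂(ν.prod ν) ∂(hl.prod hl) =
      ∫ q, ∫ p, H (p, q) ∂(hl.prod hl) ∂(ν.prod ν) := integral_integral_swap hHi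
  rw [hsw]
  have hq : ∀ q : ℂ × ℂ, ∫ p, H (p, q) ∂(hl.prod hl) =
      (∫ τ in Ioi (0 : ℝ), Real.exp (-(l * τ)) * G (τ, q.2, q.1)) *
      ∫ σ in Ioi (0 : ℝ), Real.exp (-(l * σ)) * C2 (σ, q.1, q.2) := by
    intro q
    exact integral_prod_mul (μ := hl) (ν := hl) (fun τ => Real.exp (-(l * τ)) * G (τ, q.2, q.1))
      (fun σ => Real.exp (-(l * σ)) * C2 (σ, q.1, q.2))
  have hqi : Integrable (fun q : ℂ × ℂ =>
      (∫ τ in Ioi (0 : ℝ), Real.exp (-(l * τ)) * G (τ, q.2, q.1)) *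
      ∫ σ in Ioi (0 : ℝ), Real.exp (-(l * σ)) * C2 (σ, q.1, q.2)) (ν.prod ν) := by
    refine hHi.integral_prod_right.congr (Eventually.of_forall fun q => ?_)
    exact hq q
  simp_rw [hq]
  rw [integral_prod _ hqi]

end Pool.Agent.H971.TiR
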