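import Pool.Agent.H971.TiR.A
import Pool.Agent.H971.TiR.B

set_option autoImplicit false

/-!
# Project Ti, task LR: the modes and the first kernel
-/

namespace Pool.Agent.H971.TiR

open MeasureTheory Set Filter Topology Complex
open Pool.Agent.R225.LP (gk)
open Pool.Agent.N275.QD (Rf Kf Gf Gr Hh S_KF)
open Pool.Agent.H235.Ti
open scoped Real ENNReal ComplexConjugate

/-- the modes of the first kernel -/
noncomputable def En (μ κ : ℝ) (z : ℂ) : ℝ := Kf μ (κ * ‖z‖) * Real.sinh (arg z * μ)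

lemma measurable_Kf : Measurable (fun q : ℝ × ℝ => Kf q.1 q.2) := by
  have h : StronglyMeasurable (Function.uncurry fun (q : ℝ × ℝ) (u : ℝ) =>
      Real.exp (-(q.2 * Real.cosh u)) * Real.cos (q.1 * u)) := by
    apply Measurable.stronglyMeasurable
    unfold Function.uncurry
    fun_prop
  have := h.integral_prod_right (ν := (volume : Measure ℝ).restrict (Ioi 0))
  exact this.measurable

lemma measurable_Rf (α : ℝ) : Measurable (Rf α) := by
  unfold Rf
  fun_prop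

lemma measurable_En (κ : ℝ) : Measurable (fun q : ℝ × ℂ => En q.1 κ q.2) := by
  unfold En
  have h1 : Measurable (fun q : ℝ × ℂ => Kf q.1 (κ * ‖q.2‖)) :=
    measurable_Kf.comp (f := fun q : ℝ × ℂ => (q.1, κ * ‖q.2‖)) (by fun_prop)
  have h2 : Measurable (fun q : ℝ × ℂ => Real.sinh (arg q.2 * q.1)) :=
    Real.measurable_sinh.comp ((Complex.measurable_arg.comp measurable_snd).mul measurable_fst)
  exact h1.mul h2

lemma measurable_ms (d κ : ℝ) : Measurable (fun q : ℝ × ℂ => ms d κ q.1 q.2) := by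
  have h1 : Measurable (X1 d) := (contDiff_X1 d).continuous.measurable
  have h2 : Measurable (X2 d) := (contDiff_X2 d).continuous.measurable
  unfold ms
  fun_prop

lemma measurable_Gf (α : ℝ) : Measurable (fun p : ℝ × ℂ × ℂ => Gf α p.1 p.2.1 p.2.2) := by
  unfold Gf
  have h : StronglyMeasurable (Function.uncurry fun (p : ℝ × ℂ × ℂ) (μ : ℝ) =>
      Kf μ (‖p.2.1‖ * ‖p.2.2‖ / (2 * p.1)) * Rf α μ *
      (Real.sinh (arg p.2.1 * μ) * Real.sinh (arg p.2.2 * μ))) := by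
    apply Measurable.stronglyMeasurable
    unfold Function.uncurry
    have h1 : Measurable (fun q : (ℝ × ℂ × ℂ) × ℝ => Kf q.2 (‖q.1.2.1‖ * ‖q.1.2.2‖ / (2 * q.1.1))) :=
      measurable_Kf.comp (f := fun q : (ℝ × ℂ × ℂ) × ℝ =>
        (q.2, ‖q.1.2.1‖ * ‖q.1.2.2‖ / (2 * q.1.1))) (by fun_prop)
    have h2 : Measurable (fun q : (ℝ × ℂ × ℂ) × ℝ => Rf α q.2) :=
      (measurable_Rf α).comp measurable_snd
    have h3 : Measurable (fun q : (ℝ × ℂ × ℂ) × ℝ => Real.sinh (arg q.1.2.1 * q.2)) :=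
      Real.measurable_sinh.comp ((Complex.measurable_arg.comp (by fun_prop)).mul measurable_snd)
    have h4 : Measurable (fun q : (ℝ × ℂ × ℂ) × ℝ => Real.sinh (arg q.1.2.2 * q.2)) :=
      Real.measurable_sinh.comp ((Complex.measurable_arg.comp (by fun_prop)).mul measurable_snd)
    exact (h1.mul h2).mul (h3.mul h4)
  have h5 := h.integral_prod_right (ν := (volume : Measure ℝ).restrict (Ioi 0))
  refine Measurable.mul ?_ h5.measurable
  fun_prop

lemma Gr_zero (α t : ℝ) (z w : ℂ) : Gr α 0 t z w = Gf α t z w := by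
  unfold Gr
  simp

lemma Rf_nonneg {α μ : ℝ} (hα : 0 < α) (hα2 : α < π / 2) (hμ : 0 ≤ μ) : 0 ≤ Rf α μ := by
  unfold Rf
  have := Real.pi_pos
  exact div_nonneg (Real.sinh_nonneg_iff.2 (by positivity))
    (Real.sinh_nonneg_iff.2 (mul_nonneg (by linarith) hμ))

lemma Rf_exp_integrable (gft : S_GFT) {α c : ℝ} (hα : 0 < α) (hα2 : α < π / 2) (hc : 0 ≤ c)
    (hc2 : c < π - 2 * α) : IntegrableOn (fun μ => Rf α μ * Real.exp (c * μ)) (Ioi 0) := by
  have h1 := ((gft α c hα hα2).2 (by rw [abs_of_nonneg hc]; exact hc2)).1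
  refine Integrable.mono' (h1.const_mul 2) ?_ ?_
  · have := measurable_Rf α
    exact (by fun_prop : Measurable fun μ => Rf α μ * Real.exp (c * μ)).aestronglyMeasurable
  · filter_upwards [ae_restrict_mem measurableSet_Ioi] with μ hμ
    have h2 := Rf_nonneg hα hα2 (le_of_lt hμ)
    rw [Real.norm_eq_abs, abs_of_nonneg (by positivity)]
    have h3 : Real.exp (c * μ) ≤ 2 * Real.cosh (c * μ) := by
      rw [Real.cosh_eq]
      have := Real.exp_pos (-(c * μ))
      linarith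
    nlinarith [mul_le_mul_of_nonneg_left h3 h2]

lemma abs_sinh_le (x : ℝ) : |Real.sinh x| ≤ Real.exp |x| := by
  rw [Real.abs_sinh, Real.sinh_eq]
  have := Real.exp_pos |x|
  have := Real.exp_pos (-|x|)
  linarith

lemma Kf_le (kf : S_KF) {μ x : ℝ} (hμ : 0 ≤ μ) (hx : 0 < x) :
    |Kf μ x| ≤ Real.exp (-x) * √(π / (2 * x)) := by
  have := kf.1 μ x 0 hμ hx le_rfl (by positivity)
  simpa using this

lemma sqrt_le_one_add {y : ℝ} (hy : 0 ≤ y) : √y ≤ 1 + y := by
  rw [Real.sqrt_le_left (by linarith)]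
  nlinarith

/-- bound of the first kernel -/
lemma Gf_bound (kf : S_KF) (gft : S_GFT) {α ψ r : ℝ} (hα : 0 < α) (hα2 : α < π / 2) (hψ : 0 ≤ ψ)
    (hψ2 : 2 * ψ < π - 2 * α) (hr : 0 < r) : ∃ C : ℝ, 0 < C ∧ ∀ (t : ℝ) (z w : ℂ), 0 < t →
    r ≤ ‖z‖ → r ≤ ‖w‖ → |arg z| ≤ ψ → |arg w| ≤ ψ → |Gf α t z w| ≤ C := by
  have hI := Rf_exp_integrable gft hα hα2 (by linarith : 0 ≤ 2 * ψ) hψ2
  set D := ∫ μ in Ioi (0 : ℝ), Rf α μ * Real.exp (2 * ψ * μ) with hD
  have hD0 : 0 ≤ D := by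
    apply setIntegral_nonneg measurableSet_Ioi
    intro μ hμ
    exact mul_nonneg (Rf_nonneg hα hα2 (le_of_lt hμ)) (Real.exp_pos _).le
  refine ⟨(1 / r ^ 2 + 1 / r ^ 2) * D + 1, by positivity, ?_⟩
  intro t z w ht hz hw haz haw
  set a := ‖z‖ with ha
  set b := ‖w‖ with hb
  have ha0 : 0 < a := lt_of_lt_of_le hr hz
  have hb0 : 0 < b := lt_of_lt_of_le hr hw
  set x := a * b / (2 * t) with hx
  have hx0 : 0 < x := by positivity
  have h1 : |∫ μ in Ioi (0 : ℝ), Kf μ x * Rf α μ * (Real.sinh (arg z * μ) * Real.sinh (arg w * μ))|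
      ≤ Real.exp (-x) * √(π / (2 * x)) * D := by
    rw [hD, ← integral_const_mul, ← Real.norm_eq_abs]
    apply norm_integral_le_of_norm_le (hI.const_mul _)
    filter_upwards [ae_restrict_mem measurableSet_Ioi] with μ hμ
    have hμ0 : 0 < μ := hμ
    have k1 := Kf_le kf hμ0.le hx0
    have k2 := Rf_nonneg hα hα2 hμ0.le
    have k3 : |Real.sinh (arg z * μ)| ≤ Real.exp (ψ * μ) := by
      refine (abs_sinh_le _).trans (Real.exp_le_exp.2 ?_)
      rw [abs_mul, abs_of_pos hμ0]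
      exact mul_le_mul_of_nonneg_right haz hμ0.le
    have k4 : |Real.sinh (arg w * μ)| ≤ Real.exp (ψ * μ) := by
      refine (abs_sinh_le _).trans (Real.exp_le_exp.2 ?_)
      rw [abs_mul, abs_of_pos hμ0]
      exact mul_le_mul_of_nonneg_right haw hμ0.le
    rw [Real.norm_eq_abs, abs_mul, abs_mul, abs_mul, abs_of_nonneg k2]
    have k5 : |Real.sinh (arg z * μ)| * |Real.sinh (arg w * μ)| ≤ Real.exp (2 * ψ * μ) := by
      calc _ ≤ Real.exp (ψ * μ) * Real.exp (ψ * μ) :=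
            mul_le_mul k3 k4 (abs_nonneg _) (Real.exp_pos _).le
        _ = _ := by
            rw [← Real.exp_add]
            congr 1
            ring
    calc |Kf μ x| * Rf α μ * (|Real.sinh (arg z * μ)| * |Real.sinh (arg w * μ)|) ≤
        (Real.exp (-x) * √(π / (2 * x))) * Rf α μ * Real.exp (2 * ψ * μ) := by
          apply mul_le_mul _ k5 (by positivity) (by positivity)
          exact mul_le_mul_of_nonneg_right k1 k2
      _ = _ := by ring
  unfold Gf
  rw [abs_mul, abs_of_nonneg (by positivity :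
    0 ≤ Real.exp (-((‖z‖ ^ 2 + ‖w‖ ^ 2) / (4 * t))) / (π ^ 2 * t))]
  rw [← ha, ← hb, ← hx]
  have h2 : Real.exp (-((a ^ 2 + b ^ 2) / (4 * t))) * Real.exp (-x) ≤ Real.exp (-(r ^ 2 / t)) := by
    rw [← Real.exp_add]
    apply Real.exp_le_exp.2
    have : -((a ^ 2 + b ^ 2) / (4 * t)) + -x = -((a + b) ^ 2 / (4 * t)) := by
      rw [hx]
      field_simp
      ring
    rw [this, neg_le_neg_iff, div_le_div_iff₀ ht (by positivity)]
    have : (2 * r) ^ 2 ≤ (a + b) ^ 2 := pow_le_pow_left₀ (by positivity) (by linarith) 2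
    nlinarith
  have h3 : √(π / (2 * x)) ≤ 1 + π * t / r ^ 2 := by
    have e : π / (2 * x) = π * t / (a * b) := by
      rw [hx]
      field_simp
    rw [e]
    refine (sqrt_le_one_add (by positivity)).trans ?_
    have : r ^ 2 ≤ a * b := by
      rw [sq]
      exact mul_le_mul hz hw hr.le ha0.le
    gcongr
  have h4 := exp_pow_bound (a := r ^ 2) (by positivity) ht 1
  simp only [pow_one, Nat.factorial_one, Nat.cast_one] at h4
  have h5 : Real.exp (-(r ^ 2 / t)) ≤ 1 := by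
    rw [Real.exp_le_one_iff]
    have : 0 < r ^ 2 / t := by positivity
    linarith
  have hpi := Real.pi_gt_three
  calc Real.exp (-((a ^ 2 + b ^ 2) / (4 * t))) / (π ^ 2 * t) *
      |∫ μ in Ioi (0 : ℝ), Kf μ x * Rf α μ * (Real.sinh (arg z * μ) * Real.sinh (arg w * μ))| ≤
      Real.exp (-((a ^ 2 + b ^ 2) / (4 * t))) / (π ^ 2 * t) *
        (Real.exp (-x) * √(π / (2 * x)) * D) := by gcongr
    _ = (Real.exp (-((a ^ 2 + b ^ 2) / (4 * t))) * Real.exp (-x)) * (√(π / (2 * x)) /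
        (π ^ 2 * t)) * D := by ring
    _ ≤ Real.exp (-(r ^ 2 / t)) * ((1 + π * t / r ^ 2) / (π ^ 2 * t)) * D := by gcongr
    _ = (1 / π ^ 2 * (1 / t * Real.exp (-(r ^ 2 / t))) +
          1 / π * (1 / r ^ 2) * Real.exp (-(r ^ 2 / t))) * D := by
        field_simp
    _ ≤ (1 * (1 / r ^ 2) + 1 * (1 / r ^ 2) * 1) * D := by
        have p1 : 1 / π ^ 2 ≤ 1 := by
          rw [div_le_one (by positivity)]
          nlinarith
        have p2 : 1 / π ≤ 1 := by
          rw [div_le_one (by positivity)]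
          linarith
        gcongr
    _ ≤ (1 / r ^ 2 + 1 / r ^ 2) * D + 1 := by
        have : (1 * (1 / r ^ 2) + 1 * (1 / r ^ 2) * 1) * D = (1 / r ^ 2 + 1 / r ^ 2) * D := by ring
        linarith

/-- the fundamental bound of the modes -/
lemma En_bound (kf : S_KF) {ψ κ μ : ℝ} {z : ℂ} (hψ : 0 < ψ) (hψ2 : ψ < π / 2) (hκ : 0 < κ)
    (hμ : 0 ≤ μ) (hz : 0 < z.re) : |En μ κ z| ≤ Real.exp (ψ * μ) *
      Real.exp (-(κ * (z.re * Real.cos ψ + |z.im| * Real.sin ψ))) *
      √(π / (2 * κ * ‖z‖ * Real.sin ψ)) := by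
  set θ := arg z with hθ
  have hz0 : z ≠ 0 := by
    intro h
    simp [h] at hz
  have hn : 0 < ‖z‖ := norm_pos_iff.2 hz0
  have hθ2 : |θ| < π / 2 := Complex.abs_arg_lt_pi_div_two_iff.2 (Or.inl hz)
  set γ := max (|θ| - ψ) 0 with hγ
  have hγ0 : 0 ≤ γ := le_max_right _ _
  have hγ1 : γ ≤ π / 2 - ψ := max_le (by linarith) (by linarith)
  have hγ2 : |θ| ≤ γ + ψ := by
    have := le_max_left (|θ| - ψ) 0
    linarith
  have hs0 : 0 < Real.sin ψ := Real.sin_pos_of_pos_of_lt_pi hψ (by linarith)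
  have hcos : Real.sin ψ ≤ Real.cos γ := by
    rw [← Real.cos_pi_div_two_sub]
    exact Real.cos_le_cos_of_nonneg_of_le_pi hγ0 (by linarith [Real.pi_pos]) hγ1
  have hc0 : 0 < Real.cos γ := lt_of_lt_of_le hs0 hcos
  have hcos2 : z.re * Real.cos ψ + |z.im| * Real.sin ψ ≤ ‖z‖ * Real.cos γ := by
    have e1 : z.re = ‖z‖ * Real.cos |θ| := by
      rw [Real.cos_abs, hθ, Complex.norm_mul_cos_arg]
    have e2 : |z.im| = ‖z‖ * Real.sin |θ| := by
      rw [← Real.abs_sin_eq_sin_abs_of_abs_le_pi (by linarith [Real.pi_pos])]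
      rw [← Complex.norm_mul_sin_arg, abs_mul, abs_of_pos hn]
    have e3 : z.re * Real.cos ψ + |z.im| * Real.sin ψ = ‖z‖ * Real.cos (|θ| - ψ) := by
      rw [e1, e2, Real.cos_sub]
      ring
    rw [e3]
    apply mul_le_mul_of_nonneg_left _ hn.le
    rcases le_total 0 (|θ| - ψ) with h | h
    · rw [hγ, max_eq_left h]
    · rw [hγ, max_eq_right h, Real.cos_zero]
      exact Real.cos_le_one _
  have h1 := kf.1 μ (κ * ‖z‖) γ hμ (by positivity) hγ0 (by linarith)
  have h2 : |Real.sinh (θ * μ)| ≤ Real.exp ((γ + ψ) * μ) := by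
    refine (abs_sinh_le _).trans (Real.exp_le_exp.2 ?_)
    rw [abs_mul, abs_of_nonneg hμ]
    exact mul_le_mul_of_nonneg_right hγ2 hμ
  have h3 : √(π / (2 * (κ * ‖z‖) * Real.cos γ)) ≤ √(π / (2 * κ * ‖z‖ * Real.sin ψ)) := by
    apply Real.sqrt_le_sqrt
    apply div_le_div_of_nonneg_left Real.pi_pos.le (by positivity)
    calc 2 * κ * ‖z‖ * Real.sin ψ ≤ 2 * κ * ‖z‖ * Real.cos γ :=
          mul_le_mul_of_nonneg_left hcos (by positivity)
      _ = _ := by ring
  unfold En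
  rw [abs_mul]
  calc |Kf μ (κ * ‖z‖)| * |Real.sinh (θ * μ)| ≤
      (Real.exp (-(γ * μ) - κ * ‖z‖ * Real.cos γ) * √(π / (2 * (κ * ‖z‖) * Real.cos γ))) *
        Real.exp ((γ + ψ) * μ) := mul_le_mul h1 h2 (abs_nonneg _) (by positivity)
    _ = (Real.exp (-(γ * μ) - κ * ‖z‖ * Real.cos γ) * Real.exp ((γ + ψ) * μ)) *
        √(π / (2 * (κ * ‖z‖) * Real.cos γ)) := by ring
    _ = (Real.exp (ψ * μ) * Real.exp (-(κ * (‖z‖ * Real.cos γ)))) *
        √(π / (2 * (κ * ‖z‖) * Real.cos γ)) := by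
        rw [← Real.exp_add, ← Real.exp_add]
        congr 2
        ring
    _ ≤ (Real.exp (ψ * μ) * Real.exp (-(κ * (z.re * Real.cos ψ + |z.im| * Real.sin ψ)))) *
        √(π / (2 * κ * ‖z‖ * Real.sin ψ)) := by
        apply mul_le_mul _ h3 (by positivity) (by positivity)
        apply mul_le_mul_of_nonneg_left _ (by positivity)
        apply Real.exp_le_exp.2
        have := mul_le_mul_of_nonneg_left hcos2 hκ.le
        linarith

end Pool.Agent.H971.TiR
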