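import Pool.Agent.H971.TiR.C

set_option autoImplicit false

/-!
# Project Ti, task LR: bounds of the modes and Fubini
-/

namespace Pool.Agent.H971.TiR

open MeasureTheory Set Filter Topology Complex
open Pool.Agent.R225.LP (gk)
open Pool.Agent.N275.QD (Rf Kf Gf Gr Hh S_KF)
open Pool.Agent.H235.Ti
open scoped Real ENNReal ComplexConjugate

/-- majorant in the plane -/
noncomputable def bb (d q η : ℝ) (z : ℂ) : ℝ :=
  (Icc (d / 3) (2 * d / 3)).indicator (fun _ => (1 : ℝ)) z.re *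
    (Ioi η).indicator (fun y => Real.exp (-(q * y))) z.im

lemma bb_nonneg (d q η : ℝ) (z : ℂ) : 0 ≤ bb d q η z := by
  unfold bb
  apply mul_nonneg
  · exact indicator_nonneg (fun _ _ => zero_le_one) _
  · exact indicator_nonneg (fun _ _ => (Real.exp_pos _).le) _

lemma bb_integrable {d q : ℝ} (hd : 0 < d) (hq : 0 < q) (η : ℝ) :
    Integrable (bb d q η) ∧ ∫ z, bb d q η z = d / 3 * (Real.exp (-(q * η)) / q) := by
  have h1 : Integrable ((Icc (d / 3) (2 * d / 3)).indicator (fun _ => (1 : ℝ))) := by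
    rw [integrable_indicator_iff measurableSet_Icc]
    exact integrableOn_const (by simp)
  have h2 : Integrable ((Ioi η).indicator (fun y => Real.exp (-(q * y)))) := by
    rw [integrable_indicator_iff measurableSet_Ioi]
    have := integrableOn_exp_mul_Ioi (a := -q) (by linarith) η
    refine this.congr_fun (fun t _ => ?_) measurableSet_Ioi
    simp
  have h3 : Integrable (fun p : ℝ × ℝ => (Icc (d / 3) (2 * d / 3)).indicator (fun _ => (1 : ℝ)) p.1 *
    (Ioi η).indicator (fun y => Real.exp (-(q * y))) p.2) (volume.prod volume) := h1.mul_prod h2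
  have hmp := Complex.volume_preserving_equiv_real_prod
  constructor
  · have := (hmp.integrable_comp_emb Complex.measurableEquivRealProd.measurableEmbedding).2 h3
    exact this
  · have h4 := hmp.integral_comp Complex.measurableEquivRealProd.measurableEmbedding
      (fun p : ℝ × ℝ => (Icc (d / 3) (2 * d / 3)).indicator (fun _ => (1 : ℝ)) p.1 *
        (Ioi η).indicator (fun y => Real.exp (-(q * y))) p.2)
    have h5 : ∫ z, bb d q η z = ∫ p : ℝ × ℝ, (Icc (d / 3) (2 * d / 3)).indicator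
        (fun _ => (1 : ℝ)) p.1 * (Ioi η).indicator (fun y => Real.exp (-(q * y))) p.2 := h4
    rw [h5, Measure.volume_eq_prod, integral_prod_mul, integral_indicator measurableSet_Icc,
      integral_indicator measurableSet_Ioi]
    congr 1
    · simp
      rw [max_eq_left]
      · ring
      · linarith
    · have := integral_exp_mul_Ioi (a := -q) (by linarith) η
      have e : ∀ x : ℝ, Real.exp (-(q * x)) = Real.exp (-q * x) := fun x => by
        congr 1
        ring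
      simp_rw [e]
      rw [this]
      field_simp

/-- the factor of `s` -/
noncomputable def as (d κ s : ℝ) : ℝ :=
  (1 + 2 * κ * Real.cosh s) * Real.exp (-(κ * (d / 3) * (Real.cosh s - 1)))

/-- the constant -/
noncomputable def cc (B d κ ψ : ℝ) : ℝ :=
  B * √(π / (2 * κ * (d / 3) * Real.sin ψ)) * Real.exp (-(κ * (d * Real.cos ψ)))

lemma as_nonneg {d κ : ℝ} (hκ : 0 < κ) (s : ℝ) : 0 ≤ as d κ s := by
  unfold as
  have := Real.cosh_pos s
  positivity

lemma cc_nonneg {B d κ ψ : ℝ} (hB : 0 < B) : 0 ≤ cc B d κ ψ := by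
  unfold cc
  positivity

/-- the product of a mode of the first kernel and a mode of the second kernel -/
noncomputable def Ph (d κ : ℝ) (p : ℝ × ℝ) (z : ℂ) : ℝ := En p.1 κ z * ms d κ p.2 z

lemma measurable_Ph (d κ : ℝ) : Measurable (fun q : (ℝ × ℝ) × ℂ => Ph d κ q.1 q.2) := by
  unfold Ph
  exact ((measurable_En κ).comp (f := fun q : (ℝ × ℝ) × ℂ => (q.1.1, q.2)) (by fun_prop)).mul
    ((measurable_ms d κ).comp (f := fun q : (ℝ × ℝ) × ℂ => (q.1.2, q.2)) (by fun_prop))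

lemma Ph_bound (kf : S_KF) {d B : ℝ} (hd : 0 < d) (hB : 0 < B) (hB1 : ∀ x, |X1 d x| ≤ B)
    (hB2 : ∀ x, |X2 d x| ≤ B) {ψ κ μ s η : ℝ} {z : ℂ} (hψ : 0 < ψ) (hψ2 : ψ < π / 2) (hκ : 0 < κ)
    (hμ : 0 ≤ μ) (hz : 0 < z.re) (hz2 : 0 < z.im) (hη : d / 3 ≤ z.re → z.re ≤ 2 * d / 3 → η < z.im) :
    |Ph d κ (μ, s) z| ≤ Real.exp (ψ * μ) * as d κ s * cc B d κ ψ * bb d (κ * Real.sin ψ) η z := by
  unfold Ph
  simp only
  by_cases hx : z.re < d / 3 ∨ 2 * d / 3 < z.re
  · have : ms d κ s z = 0 := by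
      unfold ms
      rw [X1_eq_zero hd hx, X2_eq_zero hd hx]
      ring
    rw [this, mul_zero, abs_zero]
    exact mul_nonneg (mul_nonneg (mul_nonneg (Real.exp_pos _).le (as_nonneg hκ s)) (cc_nonneg hB))
      (bb_nonneg _ _ _ _)
  rw [not_or, not_lt, not_lt] at hx
  have hy := hη hx.1 hx.2
  have hbb : bb d (κ * Real.sin ψ) η z = Real.exp (-(κ * Real.sin ψ * z.im)) := by
    unfold bb
    rw [indicator_of_mem (show z.re ∈ Icc (d / 3) (2 * d / 3) from hx),
      indicator_of_mem (show z.im ∈ Ioi η from hy), one_mul]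
  rw [hbb]
  have hs0 : 0 < Real.sin ψ := Real.sin_pos_of_pos_of_lt_pi hψ (by linarith)
  have hn : d / 3 ≤ ‖z‖ := hx.1.trans (Complex.re_le_norm z)
  have hc1 := Real.one_le_cosh s
  have e1 := En_bound kf hψ hψ2 hκ hμ hz
  rw [abs_of_pos hz2] at e1
  have e2 : √(π / (2 * κ * ‖z‖ * Real.sin ψ)) ≤ √(π / (2 * κ * (d / 3) * Real.sin ψ)) := by
    apply Real.sqrt_le_sqrt
    apply div_le_div_of_nonneg_left Real.pi_pos.le (by positivity)
    gcongr
  have e3 : |ms d κ s z| ≤ B * (1 + 2 * κ * Real.cosh s) *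
      Real.exp (-(κ * (d - z.re) * Real.cosh s)) := by
    unfold ms
    rw [abs_mul, abs_mul, Real.abs_exp]
    have f1 : |X2 d z.re + 2 * κ * Real.cosh s * X1 d z.re| ≤ B * (1 + 2 * κ * Real.cosh s) := by
      calc _ ≤ |X2 d z.re| + |2 * κ * Real.cosh s * X1 d z.re| := abs_add_le _ _
        _ ≤ B + 2 * κ * Real.cosh s * B := by
          rw [abs_mul, abs_of_pos (by positivity : 0 < 2 * κ * Real.cosh s)]
          gcongr
          · exact hB2 _
          · exact hB1 _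
        _ = _ := by ring
    calc _ ≤ B * (1 + 2 * κ * Real.cosh s) * Real.exp (-(κ * (d - z.re) * Real.cosh s)) * 1 := by
          apply mul_le_mul _ (Real.abs_sin_le_one _) (abs_nonneg _) (by positivity)
          exact mul_le_mul_of_nonneg_right f1 (Real.exp_pos _).le
      _ = _ := by ring
  rw [abs_mul]
  calc |En μ κ z| * |ms d κ s z| ≤ (Real.exp (ψ * μ) *
      Real.exp (-(κ * (z.re * Real.cos ψ + z.im * Real.sin ψ))) *
      √(π / (2 * κ * (d / 3) * Real.sin ψ))) * (B * (1 + 2 * κ * Real.cosh s) *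
      Real.exp (-(κ * (d - z.re) * Real.cosh s))) := by
        apply mul_le_mul (e1.trans ?_) e3 (abs_nonneg _) (by positivity)
        exact mul_le_mul_of_nonneg_left e2 (by positivity)
    _ = (Real.exp (ψ * μ) * (1 + 2 * κ * Real.cosh s) * (B * √(π / (2 * κ * (d / 3) *
        Real.sin ψ)))) * (Real.exp (-(κ * (z.re * Real.cos ψ + z.im * Real.sin ψ))) *
          Real.exp (-(κ * (d - z.re) * Real.cosh s))) := by ring
    _ ≤ (Real.exp (ψ * μ) * (1 + 2 * κ * Real.cosh s) * (B * √(π / (2 * κ * (d / 3) *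
        Real.sin ψ)))) * (Real.exp (-(κ * (d / 3) * (Real.cosh s - 1))) *
          (Real.exp (-(κ * (d * Real.cos ψ))) * Real.exp (-(κ * Real.sin ψ * z.im)))) := by
        apply mul_le_mul_of_nonneg_left _ (by positivity)
        rw [← Real.exp_add, ← Real.exp_add, ← Real.exp_add]
        apply Real.exp_le_exp.2
        have g1 : 0 ≤ κ * ((d - z.re - d / 3) * (Real.cosh s - 1)) := by
          apply mul_nonneg hκ.le
          apply mul_nonneg <;> linarith
        have g2 : 0 ≤ κ * ((d - z.re) * (1 - Real.cos ψ)) := by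
          apply mul_nonneg hκ.le
          apply mul_nonneg
          · linarith
          · linarith [Real.cos_le_one ψ]
        nlinarith
    _ = _ := by
        unfold as cc
        ring

/-- the quadrant -/
def Qd : Set ℂ := {z | 0 < z.re ∧ 0 < z.im}

lemma measurableSet_Qd : MeasurableSet Qd :=
  (measurableSet_lt measurable_const Complex.measurable_re).inter
    (measurableSet_lt measurable_const Complex.measurable_im)

section

variable {d B ψ κ : ℝ}

lemma Ph_integrable (kf : S_KF) (hd : 0 < d) (hB : 0 < B) (hB1 : ∀ x, |X1 d x| ≤ B)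
    (hB2 : ∀ x, |X2 d x| ≤ B) (hψ : 0 < ψ) (hψ2 : ψ < π / 2) (hκ : 0 < κ)
    {p : ℝ × ℝ} (hμ : 0 ≤ p.1) : IntegrableOn (Ph d κ p) Qd := by
  have hs0 : 0 < Real.sin ψ := Real.sin_pos_of_pos_of_lt_pi hψ (by linarith)
  have h1 := (bb_integrable hd (by positivity : 0 < κ * Real.sin ψ) 0).1
  refine Integrable.mono' ((h1.const_mul (Real.exp (ψ * p.1) * as d κ p.2 *
    cc B d κ ψ)).integrableOn (s := Qd)) ?_ ?_
  · exact ((measurable_Ph d κ).comp (f := fun z : ℂ => (p, z)) (by fun_prop)).aestronglyMeasurable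
  · filter_upwards [ae_restrict_mem measurableSet_Qd] with z hz
    exact Ph_bound kf hd hB hB1 hB2 hψ hψ2 hκ hμ hz.1 hz.2 (fun _ _ => hz.2)

/-- the integral of `Ph` over a subset of the quadrant in which all the points in question have
`im > η` -/
lemma Ph_int_le (kf : S_KF) (hd : 0 < d) (hB : 0 < B) (hB1 : ∀ x, |X1 d x| ≤ B)
    (hB2 : ∀ x, |X2 d x| ≤ B) (hψ : 0 < ψ) (hψ2 : ψ < π / 2) (hκ : 0 < κ)
    {p : ℝ × ℝ} (hμ : 0 ≤ p.1) {S : Set ℂ} (hS : MeasurableSet S) (hSQ : S ⊆ Qd) {η : ℝ}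
    (hSη : ∀ z ∈ S, d / 3 ≤ z.re → z.re ≤ 2 * d / 3 → η < z.im) :
    |∫ z in S, Ph d κ p z| ≤ Real.exp (ψ * p.1) * as d κ p.2 * cc B d κ ψ *
      (d / 3 * (Real.exp (-(κ * Real.sin ψ * η)) / (κ * Real.sin ψ))) := by
  have hs0 : 0 < Real.sin ψ := Real.sin_pos_of_pos_of_lt_pi hψ (by linarith)
  obtain ⟨h1, h2⟩ := bb_integrable hd (by positivity : 0 < κ * Real.sin ψ) η
  rw [← h2, ← integral_const_mul, ← Real.norm_eq_abs]
  have hc : 0 ≤ Real.exp (ψ * p.1) * as d κ p.2 * cc B d κ ψ :=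
    mul_nonneg (mul_nonneg (Real.exp_pos _).le (as_nonneg hκ _)) (cc_nonneg hB)
  calc ‖∫ z in S, Ph d κ p z‖ ≤ ∫ z in S, Real.exp (ψ * p.1) * as d κ p.2 * cc B d κ ψ *
      bb d (κ * Real.sin ψ) η z := by
        apply norm_integral_le_of_norm_le (h1.const_mul _).integrableOn
        filter_upwards [ae_restrict_mem hS] with z hz
        exact Ph_bound kf hd hB hB1 hB2 hψ hψ2 hκ hμ (hSQ hz).1 (hSQ hz).2 (hSη z hz)
    _ ≤ _ := by
        apply setIntegral_le_integral (h1.const_mul _)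
        exact Eventually.of_forall fun z => mul_nonneg hc (bb_nonneg _ _ _ _)

/-- Fubini for a subset of the quadrant -/
lemma fub (kf : S_KF) (gft : S_GFT) (hd : 0 < d) (hB : 0 < B) (hB1 : ∀ x, |X1 d x| ≤ B)
    (hB2 : ∀ x, |X2 d x| ≤ B) (hψ : 0 < ψ) {α : ℝ} (hα : 0 < α) (hα2 : α < π / 2)
    (hψ2 : 2 * ψ < π - 2 * α) (hκ : 0 < κ)
    (has : Integrable (fun s => as d κ s ^ 2) hl)
    {S : Set ℂ} (hS : MeasurableSet S) (hSQ : S ⊆ Qd) :
    ∫ z in S, ∫ w in S, GH α 0 κ w z *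
      (1 / π * ∫ s in Ioi (0 : ℝ), ms d κ s z * ms d κ s w) =
    2 / π ^ 3 * ∫ p, Rf α p.1 * (∫ z in S, Ph d κ p z) ^ 2 ∂(hl.prod hl) := by
  have hψ3 : ψ < π / 2 := by linarith
  have hs0 : 0 < Real.sin ψ := Real.sin_pos_of_pos_of_lt_pi hψ (by linarith)
  set ν : Measure ℂ := volume.restrict S with hν
  have hνae : ∀ᵐ q : ℂ × ℂ ∂(ν.prod ν), q.1 ∈ S ∧ q.2 ∈ S := by
    have hr : ν.prod ν = ((volume : Measure ℂ).prod (volume : Measure ℂ)).restrict (S ×ˢ S) :=
      Measure.prod_restrict _ _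
    rw [hr]
    filter_upwards [ae_restrict_mem (hS.prod hS)] with p hp
    exact hp
  set H : (ℂ × ℂ) × (ℝ × ℝ) → ℝ := fun x =>
    Rf α x.2.1 * (Ph d κ x.2 x.1.1 * Ph d κ x.2 x.1.2) with hH
  have hHm : Measurable H := by
    have h1 : Measurable fun x : (ℂ × ℂ) × (ℝ × ℝ) => Rf α x.2.1 :=
      (measurable_Rf α).comp (by fun_prop)
    have h2 : Measurable fun x : (ℂ × ℂ) × (ℝ × ℝ) => Ph d κ x.2 x.1.1 :=
      (measurable_Ph d κ).comp (f := fun x : (ℂ × ℂ) × (ℝ × ℝ) => (x.2, x.1.1)) (by fun_prop)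
    have h3 : Measurable fun x : (ℂ × ℂ) × (ℝ × ℝ) => Ph d κ x.2 x.1.2 :=
      (measurable_Ph d κ).comp (f := fun x : (ℂ × ℂ) × (ℝ × ℝ) => (x.2, x.1.2)) (by fun_prop)
    exact h1.mul (h2.mul h3)
  have hbb := (bb_integrable hd (by positivity : 0 < κ * Real.sin ψ) 0).1
  have hbbS : Integrable (bb d (κ * Real.sin ψ) 0) ν := hbb.integrableOn
  have hdom : Integrable (fun x : (ℂ × ℂ) × (ℝ × ℝ) =>
      (bb d (κ * Real.sin ψ) 0 x.1.1 * bb d (κ * Real.sin ψ) 0 x.1.2) *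
        (cc B d κ ψ ^ 2 * ((Rf α x.2.1 * Real.exp (2 * ψ * x.2.1)) * as d κ x.2.2 ^ 2)))
      ((ν.prod ν).prod (hl.prod hl)) := by
    have h1 : Integrable (fun q : ℂ × ℂ => bb d (κ * Real.sin ψ) 0 q.1 *
      bb d (κ * Real.sin ψ) 0 q.2) (ν.prod ν) := hbbS.mul_prod hbbS
    have h2 : Integrable (fun p : ℝ × ℝ => (Rf α p.1 * Real.exp (2 * ψ * p.1)) *
      as d κ p.2 ^ 2) (hl.prod hl) :=
      (Rf_exp_integrable gft hα hα2 (by linarith : 0 ≤ 2 * ψ) hψ2).mul_prod has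
    exact h1.mul_prod (h2.const_mul _)
  have hHi : Integrable H ((ν.prod ν).prod (hl.prod hl)) := by
    refine hdom.mono' hHm.aestronglyMeasurable ?_
    have h1 : ∀ᵐ x : (ℂ × ℂ) × (ℝ × ℝ) ∂((ν.prod ν).prod (hl.prod hl)),
        0 < x.2.1 ∧ 0 < x.2.2 :=
      (Measure.quasiMeasurePreserving_snd (μ := ν.prod ν) (ν := hl.prod hl)).ae ae_hl_prod
    have h2 : ∀ᵐ x : (ℂ × ℂ) × (ℝ × ℝ) ∂((ν.prod ν).prod (hl.prod hl)),
        x.1.1 ∈ S ∧ x.1.2 ∈ S :=
      (Measure.quasiMeasurePreserving_fst (μ := ν.prod ν) (ν := hl.prod hl)).ae hνae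
    filter_upwards [h1, h2] with x hx1 hx2
    rw [Real.norm_eq_abs, hH]
    simp only [abs_mul]
    have hR := Rf_nonneg hα hα2 hx1.1.le
    rw [abs_of_nonneg hR]
    have e1 := Ph_bound (s := x.2.2) kf hd hB hB1 hB2 hψ hψ3 hκ hx1.1.le (hSQ hx2.1).1 (hSQ hx2.1).2
      (fun _ _ => (hSQ hx2.1).2)
    have e2 := Ph_bound (s := x.2.2) kf hd hB hB1 hB2 hψ hψ3 hκ hx1.1.le (hSQ hx2.2).1 (hSQ hx2.2).2
      (fun _ _ => (hSQ hx2.2).2)
    have hc : 0 ≤ Real.exp (ψ * x.2.1) * as d κ x.2.2 * cc B d κ ψ :=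
      mul_nonneg (mul_nonneg (Real.exp_pos _).le (as_nonneg hκ _)) (cc_nonneg hB)
    calc Rf α x.2.1 * (|Ph d κ x.2 x.1.1| * |Ph d κ x.2 x.1.2|) ≤ Rf α x.2.1 *
        ((Real.exp (ψ * x.2.1) * as d κ x.2.2 * cc B d κ ψ * bb d (κ * Real.sin ψ) 0 x.1.1) *
          (Real.exp (ψ * x.2.1) * as d κ x.2.2 * cc B d κ ψ * bb d (κ * Real.sin ψ) 0 x.1.2)) := by
          apply mul_le_mul_of_nonneg_left _ hR
          exact mul_le_mul e1 e2 (abs_nonneg _) (mul_nonneg hc (bb_nonneg _ _ _ _))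
      _ = _ := by
          have : Real.exp (2 * ψ * x.2.1) = Real.exp (ψ * x.2.1) * Real.exp (ψ * x.2.1) := by
            rw [← Real.exp_add]
            congr 1
            ring
          rw [this]
          ring
  -- the inner identity
  have hin : ∀ z w : ℂ, GH α 0 κ w z * (1 / π * ∫ s in Ioi (0 : ℝ), ms d κ s z * ms d κ s w) =
      2 / π ^ 3 * ∫ p, H ((z, w), p) ∂(hl.prod hl) := by
    intro z w
    have h1 := integral_prod_mul (μ := hl) (ν := hl)
      (fun μ => Rf α μ * (Kf μ (κ * ‖w‖) * Real.sinh ((arg w + 0) * μ)) *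
        (Kf μ (κ * ‖z‖) * Real.sinh ((arg z + 0) * μ))) (fun s => ms d κ s z * ms d κ s w)
    unfold GH
    have h2 : (fun p : ℝ × ℝ => H ((z, w), p)) = fun p : ℝ × ℝ =>
        (Rf α p.1 * (Kf p.1 (κ * ‖w‖) * Real.sinh ((arg w + 0) * p.1)) *
        (Kf p.1 (κ * ‖z‖) * Real.sinh ((arg z + 0) * p.1))) * (ms d κ p.2 z * ms d κ p.2 w) := by
      funext p
      rw [hH]
      simp only [Ph, En, add_zero]
      ring
    rw [h2, h1]
    have h3 : ∀ A1 A2 : ℝ, 2 / π ^ 2 * A1 * (1 / π * A2) = 2 / π ^ 3 * (A1 * A2) := by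
      intro A1 A2
      field_simp
    exact h3 _ _
  simp_rw [hin]
  have hHq := hHi.integral_prod_left
  have h1 : ∫ z in S, ∫ w in S, 2 / π ^ 3 * ∫ p, H ((z, w), p) ∂(hl.prod hl) =
      2 / π ^ 3 * ∫ q, ∫ p, H (q, p) ∂(hl.prod hl) ∂(ν.prod ν) := by
    rw [integral_prod _ hHq, ← integral_const_mul]
    congr 1
    funext z
    rw [← integral_const_mul]
  rw [h1]
  congr 1
  have hsw : ∫ q, ∫ p, H (q, p) ∂(hl.prod hl) ∂(ν.prod ν) =
      ∫ p, ∫ q, H (q, p) ∂(ν.prod ν) ∂(hl.prod hl) := integral_integral_swap hHi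
  rw [hsw]
  congr 1
  funext p
  rw [hH]
  simp only
  rw [integral_const_mul]
  congr 1
  rw [integral_prod_mul, sq]

end

end Pool.Agent.H971.TiR
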